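import Pool.Agent.J4H12.TB.Stm

/-!
# Project TB: (CRN), crossing from `2δ` to `4δ` costs `v`, and (CSN)
-/

namespace Pool.Agent.J4H75.TB

open Filter Topology Set Pool.Agent.J4H12.TB

theorem le_of_deriv {f f' : ℝ → ℝ} {a b : ℝ} (hab : a ≤ b)
    (hf : ∀ x ∈ Icc a b, HasDerivAt f (f' x) x) (h0 : ∀ x ∈ Icc a b, 0 ≤ f' x) : f a ≤ f b := by
  have h1 : MonotoneOn f (Icc a b) := by
    apply monotoneOn_of_deriv_nonneg (convex_Icc a b)
    · exact fun x hx => (hf x hx).continuousAt.continuousWithinAt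
    · intro x hx
      exact (hf x (interior_subset hx)).differentiableAt.differentiableWithinAt
    · intro x hx
      rw [(hf x (interior_subset hx)).deriv]
      exact h0 x (interior_subset hx)
  exact h1 (left_mem_Icc.mpr hab) (right_mem_Icc.mpr hab) hab

/-- if `|f'| ≤ g'` on `[a, b]` then `|f b - f a| ≤ g b - g a` -/
theorem abs_sub_le {f f' g g' : ℝ → ℝ} {a b : ℝ} (hab : a ≤ b)
    (hf : ∀ x ∈ Icc a b, HasDerivAt f (f' x) x) (hg : ∀ x ∈ Icc a b, HasDerivAt g (g' x) x)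
    (h0 : ∀ x ∈ Icc a b, |f' x| ≤ g' x) : |f b - f a| ≤ g b - g a := by
  have h1 : (fun x => g x - f x) a ≤ (fun x => g x - f x) b :=
    le_of_deriv hab (fun x hx => (hg x hx).sub (hf x hx)) (fun x hx => by
      have := (abs_le.mp (h0 x hx)).2
      linarith)
  have h2 : (fun x => g x + f x) a ≤ (fun x => g x + f x) b :=
    le_of_deriv hab (fun x hx => (hg x hx).add (hf x hx)) (fun x hx => by
      have := (abs_le.mp (h0 x hx)).1
      linarith)
  simp only at h1 h2
  rw [abs_le]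
  constructor <;> linarith

/-- first time at level `A` -/
theorem first_time {f : ℝ → ℝ} (hf : Continuous f) {A x y : ℝ} (hxy : x ≤ y) (hx : f x ≤ A)
    (hy : A ≤ f y) : ∃ z ∈ Icc x y, f z = A ∧ ∀ w ∈ Icc x z, f w ≤ A := by
  have hK : IsCompact (Icc x y ∩ {w | A ≤ f w}) :=
    isCompact_Icc.inter_right (isClosed_le continuous_const hf)
  obtain ⟨z, hz⟩ := hK.exists_isLeast ⟨y, right_mem_Icc.mpr hxy, hy⟩
  have hz1 := hz.1.1
  have hz2 : A ≤ f z := hz.1.2
  have hmin : ∀ w ∈ Icc x z, A ≤ f w → w = z := fun w hw h =>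
    le_antisymm hw.2 (hz.2 ⟨⟨hw.1, hw.2.trans hz1.2⟩, h⟩)
  obtain ⟨w, hw, hw2⟩ := intermediate_value_Icc hz1.1 hf.continuousOn (show A ∈ Icc (f x) (f z) from ⟨hx, hz2⟩)
  have hwz := hmin w hw hw2.ge
  refine ⟨z, hz1, by rw [← hwz]; exact hw2, ?_⟩
  intro u hu
  by_contra hcon
  push Not at hcon
  have h1 := hmin u hu hcon.le
  rw [h1, ← hwz, hw2] at hcon
  exact lt_irrefl _ hcon

/-- last time at level `A` -/
theorem last_time {f : ℝ → ℝ} (hf : Continuous f) {A x y : ℝ} (hxy : x ≤ y) (hx : A ≤ f x)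
    (hy : f y ≤ A) : ∃ z ∈ Icc x y, f z = A ∧ ∀ w ∈ Icc z y, f w ≤ A := by
  obtain ⟨z, hz, hz1, hz2⟩ := first_time (f := fun t => f (-t)) (hf.comp continuous_neg)
    (A := A) (x := -y) (y := -x) (by linarith) (by simpa using hy) (by simpa using hx)
  refine ⟨-z, ⟨by linarith [hz.2], by linarith [hz.1]⟩, hz1, ?_⟩
  intro w hw
  have := hz2 (-w) ⟨by linarith [hw.2], by linarith [hw.1]⟩
  simpa using this

section

variable {m : Fin 3 → ℝ} {C E : ℝ} {q v : Fin 3 → ℝ → ℂ}

theorem vv_mono (hE : 0 < E) (hb : Bas m C E q v) {s t : ℝ} (hst : s ≤ t) :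
    vv m q v s ≤ vv m q v t := by
  apply le_of_deriv hst (fun x _ => hb.dvv x)
  intro x _
  have h1 := hb.W0 x
  exact div_nonneg (by linarith) (Real.sqrt_nonneg _)

theorem cont_ratio (hb : Bas m C E q v) (a : Fin 3) :
    Continuous fun t => D q a t / rho m q t := by
  rw [continuous_iff_continuousAt]
  intro t
  obtain ⟨d, hd, _⟩ := hb.dD a t
  exact hd.continuousAt

/-- smallest product of two masses -/
theorem exists_mm (m : Fin 3 → ℝ) (hm : ∀ a, 0 < m a) : ∃ c : ℝ, 0 < c ∧ ∀ a, c ≤ m (a + 1) * m (a + 2) := by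
  refine ⟨min (m 1 * m 2) (min (m 2 * m 0) (m 0 * m 1)), ?_, ?_⟩
  · exact lt_min (mul_pos (hm _) (hm _)) (lt_min (mul_pos (hm _) (hm _)) (mul_pos (hm _) (hm _)))
  · intro a
    fin_cases a
    · exact min_le_left _ _
    · exact (min_le_right _ _).trans (min_le_left _ _)
    · exact (min_le_right _ _).trans (min_le_right _ _)

theorem U_ge (hm : ∀ a, 0 < m a) (hb : Bas m C E q v) (a : Fin 3) (t : ℝ) :
    m (a + 1) * m (a + 2) / D q a t ≤ U m q t := by
  unfold U
  exact Finset.single_le_sum (f := fun a : Fin 3 => m (a + 1) * m (a + 2) / D q a t)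
    (fun i _ => (div_pos (mul_pos (hm _) (hm _)) (hb.Dpos i t)).le) (Finset.mem_univ a)

/-- where a pair is close, the shape moves slower than `v` -/
theorem close_bound (hm : ∀ a, 0 < m a) {c₁ V δ : ℝ} (hc₁ : 0 < c₁)
    (hc : ∀ a, c₁ ≤ m (a + 1) * m (a + 2)) (hδ : 0 < δ)
    (hδ1 : δ ≤ c₁ / (2 * (2 * V + 1))) (hV : 0 < V) (hE : 0 < E) (hC : 1 ≤ C) (hb : Bas m C E q v)
    (hs : Spd V m E q v) {p : Fin 3} {x : ℝ} (hn : E * rho m q x ≤ 1)
    (hx : D q p x / rho m q x ≤ 4 * δ) :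
    C * (√(W m q v x) / rho m q x) ≤ 2 * C * ((W m q v x / 2 + E) / √(rho m q x)) := by
  have hr := hb.rpos x
  have hD := hb.Dpos p x
  have hDr : D q p x ≤ 4 * δ * rho m q x := by rwa [div_le_iff₀ hr] at hx
  have hU : c₁ / (4 * δ * rho m q x) ≤ U m q x := by
    refine le_trans ?_ (U_ge hm hb p x)
    have h1 : c₁ / (4 * δ * rho m q x) ≤ c₁ / D q p x :=
      div_le_div_of_nonneg_left hc₁.le hD hDr
    refine h1.trans ?_
    exact div_le_div_of_nonneg_right (hc p) hD.le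
  have hE1 : E ≤ 1 / rho m q x := by rwa [le_div_iff₀ hr]
  have hS := hs x
  have hW := hb.WU x
  have hW1 : 1 / rho m q x ≤ W m q v x := by
    have h2 : (J m q v x / rho m q x) ^ 2 ≤ 2 * V / rho m q x := by
      refine hS.trans ?_
      have : V * (E + 1 / rho m q x) ≤ V * (1 / rho m q x + 1 / rho m q x) :=
        mul_le_mul_of_nonneg_left (by linarith) hV.le
      refine this.trans (le_of_eq ?_)
      ring
    have h3 : (2 * V + 1) / rho m q x ≤ 2 * U m q x := by
      have h4 : 2 * (c₁ / (4 * δ * rho m q x)) ≤ 2 * U m q x := by linarith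
      refine le_trans ?_ h4
      have h5 : 2 * (c₁ / (4 * δ * rho m q x)) = (c₁ / (2 * δ)) / rho m q x := by
        field_simp; ring
      rw [h5]
      apply div_le_div_of_nonneg_right _ hr.le
      rw [le_div_iff₀ (by positivity)]
      rw [le_div_iff₀ (by positivity)] at hδ1
      linarith
    have h6 : (2 * V + 1) / rho m q x = 2 * V / rho m q x + 1 / rho m q x := by ring
    linarith
  -- `√W ≤ W √ρ`
  have hW0 : 0 < W m q v x := lt_of_lt_of_le (by positivity) hW1
  have hsr : 0 < √(rho m q x) := Real.sqrt_pos.mpr hr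
  have hsW : 0 < √(W m q v x) := Real.sqrt_pos.mpr hW0
  have h7 : 1 ≤ √(W m q v x) * √(rho m q x) := by
    rw [← Real.sqrt_mul hW0.le]
    rw [Real.one_le_sqrt]
    rw [div_le_iff₀ hr] at hW1
    exact hW1
  have h8 : √(W m q v x) ≤ W m q v x * √(rho m q x) := by
    have h9 : √(W m q v x) * √(W m q v x) = W m q v x := Real.mul_self_sqrt hW0.le
    calc √(W m q v x) = √(W m q v x) * 1 := by ring
      _ ≤ √(W m q v x) * (√(W m q v x) * √(rho m q x)) := mul_le_mul_of_nonneg_left h7 hsW.le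
      _ = W m q v x * √(rho m q x) := by rw [← mul_assoc, h9]
  have h10 : √(W m q v x) / rho m q x ≤ W m q v x / √(rho m q x) := by
    rw [div_le_div_iff₀ hr hsr]
    have h11 : √(rho m q x) * √(rho m q x) = rho m q x := Real.mul_self_sqrt hr.le
    calc √(W m q v x) * √(rho m q x) ≤ (W m q v x * √(rho m q x)) * √(rho m q x) :=
          mul_le_mul_of_nonneg_right h8 hsr.le
      _ = W m q v x * rho m q x := by rw [mul_assoc, h11]
  have h12 : W m q v x / √(rho m q x) ≤ 2 * ((W m q v x / 2 + E) / √(rho m q x)) := by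
    rw [← mul_div_assoc]
    apply div_le_div_of_nonneg_right _ hsr.le
    linarith
  calc C * (√(W m q v x) / rho m q x) ≤ C * (2 * ((W m q v x / 2 + E) / √(rho m q x))) :=
        mul_le_mul_of_nonneg_left (h10.trans h12) (by linarith)
    _ = _ := by ring

end

theorem t_CRN (hB : S_BAS) : S_CRN := by
  intro m hm V hV
  obtain ⟨C, hC, hbas⟩ := hB m hm
  obtain ⟨c₁, hc₁, hc⟩ := exists_mm m hm
  refine ⟨c₁ / (2 * (2 * V + 1)), by positivity, fun δ hδ hδ1 => ⟨δ / C, by positivity, ?_⟩⟩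
  intro E q v hsol hs s t hst hnear p x hx y hy hDx hDy
  have hb := hbas E q v hsol
  have hE := hsol.Epos
  have hC0 : 0 < C := by linarith
  set f : ℝ → ℝ := fun t => D q p t / rho m q t with hf
  have hcont : Continuous f := cont_ratio hb p
  have hx1 : f x ≤ 2 * δ := by
    rw [hf]
    simp only
    rw [div_le_iff₀ (hb.rpos x)]
    exact hDx
  have hy1 : 4 * δ ≤ f y := by
    rw [hf]
    simp only
    rw [le_div_iff₀ (hb.rpos y)]
    exact hDy
  choose d hd hd1 using hb.dD p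
  -- a piece
  have piece : ∀ z z', s ≤ z → z ≤ z' → z' ≤ t → (∀ w ∈ Icc z z', f w ≤ 4 * δ) →
      |f z' - f z| ≤ 2 * C * (vv m q v t - vv m q v s) := by
    intro z z' hsz hzz hzt hw
    have h1 := abs_sub_le (f := f) (f' := d) (g := fun t => 2 * C * vv m q v t)
      (g' := fun t => 2 * C * ((W m q v t / 2 + E) / √(rho m q t))) hzz
      (fun w _ => hd w) (fun w _ => (hb.dvv w).const_mul (2 * C))
      (fun w hw' => (hd1 w).trans (close_bound hm hc₁ hc hδ hδ1 hV hE hC hb hs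
        (hnear w ⟨hsz.trans hw'.1, hw'.2.trans hzt⟩) (hw w hw')))
    refine h1.trans ?_
    have h2 := vv_mono hE hb hsz
    have h3 := vv_mono hE hb hzt
    have h4 : vv m q v z' - vv m q v z ≤ vv m q v t - vv m q v s := by linarith
    have h5 := mul_le_mul_of_nonneg_left h4 (by positivity : (0 : ℝ) ≤ 2 * C)
    linarith
  rw [div_le_iff₀ hC0]
  rcases le_total x y with hxy | hxy
  · obtain ⟨z, hz, hz1, hz2⟩ := first_time hcont hxy (show f x ≤ 4 * δ by linarith) hy1
    have h1 := piece x z hx.1 hz.1 (hz.2.trans hy.2) hz2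
    have h2 := (abs_le.mp h1).2
    linarith
  · obtain ⟨z, hz, hz1, hz2⟩ := last_time hcont hxy hy1 (show f x ≤ 4 * δ by linarith)
    have h1 := piece z x (hy.1.trans hz.1) hz.2 hx.2 hz2
    have h2 := (abs_le.mp h1).1
    linarith

theorem t_CSN (hB : S_BAS) (hR : S_RA) (hN : S_CRN) (hS : S_STN) : S_CSN := by
  intro m hm V hV
  obtain ⟨C, hC, hbas⟩ := hB m hm
  obtain ⟨δ₀, hδ₀, hcrn⟩ := hN m hm V hV
  refine ⟨δ₀, hδ₀, fun δ hδ hδ1 => ?_⟩
  obtain ⟨c₁, hc₁, h1⟩ := hcrn δ hδ hδ1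
  obtain ⟨c₂, hc₂, h2⟩ := hS m hm δ V hδ hV
  refine ⟨min c₁ c₂, lt_min hc₁ hc₂, ?_⟩
  intro E q v hsol hs s t hst hnear a b hab ha hb'
  have hb := hbas E q v hsol
  have hE := hsol.Epos
  obtain ⟨hchi, hra⟩ := hR m E q v hsol
  obtain ⟨x, hx, hx0⟩ := hra s t a b hst hab ha hb'
  by_cases hall : ∀ p, 2 * δ * rho m q x ≤ D q p x
  · right
    have h3 := h2 E q v hsol hs x t hx.2 (fun y hy => hnear y ⟨hx.1.trans hy.1, hy.2⟩) a hx0 hall
      (hchi b t hb')
    have h4 := vv_mono hE hb hx.1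
    exact (min_le_right _ _).trans (by linarith)
  · push Not at hall
    obtain ⟨p, hp⟩ := hall
    by_cases hcl : Close m q δ p s t
    · exact Or.inl ⟨p, hcl⟩
    · right
      unfold Close at hcl
      push Not at hcl
      obtain ⟨y, hy, hy1⟩ := hcl
      have h3 := h1 E q v hsol hs s t hst hnear p x hx y hy hp.le hy1.le
      exact (min_le_left _ _).trans h3

end Pool.Agent.J4H75.TB
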