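import Pool.Agent.J4H12.TB.Bas1
import Pool.Agent.J4H75.TB.Crn

/-!
# Project TB: (EXF), a close pair in the far region
-/

namespace Pool.Agent.J4H75.TB

open Filter Topology Set Pool.Agent.J4H12.TB

theorem cr_abs_le (z w : ℂ) : |cr z w| ≤ ‖z‖ * ‖w‖ := by
  apply abs_le_of_sq_le_sq _ (by positivity)
  rw [mul_pow, nsq, nsq]
  unfold cr
  nlinarith [sq_nonneg (z.re * w.re + z.im * w.im)]

theorem cr_self (z : ℂ) : cr z z = 0 := by unfold cr; ring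

/-- derivative of the direction -/
theorem dir_deriv {X : ℝ → ℂ} {Y : ℂ} {t : ℝ} (hX : HasDerivAt X Y t) (h0 : X t ≠ 0) :
    ∃ d : ℂ, HasDerivAt (fun t => X t / ‖X t‖) d t ∧ ‖d‖ ≤ |cr (X t) Y| / ‖X t‖ ^ 2 := by
  have hn : 0 < ‖X t‖ := norm_pos_iff.mpr h0
  have h1 := hasDerivAt_nrm hX h0
  have h2 := h1.ofReal_comp
  have hne : ((‖X t‖ : ℝ) : ℂ) ≠ 0 := by exact_mod_cast hn.ne'
  have h3 := hX.div h2 hne
  refine ⟨_, h3, ?_⟩
  set R := ‖X t‖ with hR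
  have hRR : R ^ 2 = (X t).re ^ 2 + (X t).im ^ 2 := nsq _
  rw [norm_div, norm_pow, Complex.norm_real, Real.norm_eq_abs, abs_of_pos hn]
  have h4 : ‖Y * (R : ℂ) - X t * ((dt (X t) Y / R : ℝ) : ℂ)‖ ≤ |cr (X t) Y| := by
    apply le_of_eq
    have h5 : (‖Y * (R : ℂ) - X t * ((dt (X t) Y / R : ℝ) : ℂ)‖) ^ 2 = (cr (X t) Y) ^ 2 := by
      rw [nsq]
      simp only [Complex.sub_re, Complex.sub_im, Complex.re_mul_ofReal, Complex.im_mul_ofReal]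
      have h6 : dt (X t) Y / R * R = dt (X t) Y := by field_simp
      set k := dt (X t) Y / R with hk
      have h7 : (Y.re * R - (X t).re * k) ^ 2 + (Y.im * R - (X t).im * k) ^ 2 =
          (Y.re ^ 2 + Y.im ^ 2) * R ^ 2 - 2 * (k * R) * ((X t).re * Y.re + (X t).im * Y.im)
            + k ^ 2 * ((X t).re ^ 2 + (X t).im ^ 2) := by ring
      rw [h7, ← hRR]
      have h8 : k ^ 2 * R ^ 2 = (k * R) ^ 2 := by ring
      rw [h8, h6, hRR]
      unfold dt cr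
      ring
    have h9 : ‖Y * (R : ℂ) - X t * ((dt (X t) Y / R : ℝ) : ℂ)‖ = |‖Y * (R : ℂ) - X t * ((dt (X t) Y / R : ℝ) : ℂ)‖| :=
      (abs_of_nonneg (norm_nonneg _)).symm
    rw [h9]
    exact (sq_eq_sq_iff_abs_eq_abs _ _).mp h5
  exact div_le_div_of_nonneg_right h4 (by positivity)

theorem d_sqrt {R t : ℝ} (h : 0 < R + t) :
    HasDerivAt (fun t => √(R + t)) (1 / (2 * √(R + t))) t := by
  have h1 := ((hasDerivAt_id t).const_add R).sqrt (x := t) (by simpa using h.ne')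
  simpa using h1

theorem d_isqrt {R t : ℝ} (h : 0 < R + t) :
    HasDerivAt (fun t => - (√(R + t))⁻¹) (1 / (2 * ((R + t) * √(R + t)))) t := by
  have hs : 0 < √(R + t) := Real.sqrt_pos.mpr h
  have h1 := ((d_sqrt h).inv hs.ne').neg
  refine h1.congr_deriv ?_
  rw [Real.sq_sqrt h.le]
  field_simp

theorem alt_le {q : Fin 3 → ℝ → ℂ} {n : ℕ} {τ : ℕ → ℝ} {lab : ℕ → Fin 3} (h : Alt q n τ lab) :
    ∀ i, i ≤ n → τ 0 ≤ τ i := by
  intro i
  induction i with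
  | zero => intro _; exact le_rfl
  | succ i ih => intro hi; exact (ih (by omega)).trans (h.1 i (by omega)).le

/-- the constants are positive -/
theorem pair_core {m : Fin 3 → ℝ} {p : Fin 3} {μ ν M C₁ L κ c CF κ' K δ : ℝ}
    (hμ : 0 < μ) (hν : 0 < ν) (hC₁ : 0 < C₁) (hL : 0 < L) (hc : 0 < c)
    (hCF : 1 ≤ CF) (hK : 0 < K) (hδ : 0 < δ) (hδ1 : 4 * δ ≤ κ) (hδ2 : 4 * δ ≤ κ' * c)
    (hδ3 : 4 * δ ≤ 1)
    {q v : Fin 3 → ℝ → ℂ} {r w X Y F G : ℝ → ℂ} {P : ℝ → ℝ}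
    (hp : Pair m p μ ν M C₁ L κ c 1 q v r w X Y F G P)
    (hrho : ∀ t, 0 < rho m q t)
    (hf : ∀ t, 0 ≤ t → rho m q 0 + t ≤ CF * rho m q t ∧ rho m q t ≤ CF * (rho m q 0 + t))
    (h1 : 1 ≤ rho m q 0)
    (hexu : ∀ a b : ℝ, a ≤ b → (∀ x ∈ Icc a b, ‖r x‖ ≤ κ' * ‖X x‖ ∧ -L ≤ eps M r w x * ‖X x‖) →
      ∀ S S' : ℝ → ℝ, (∀ x ∈ Icc a b, HasDerivAt S (S' x) x ∧
        ‖r x‖ * √‖r x‖ / ‖X x‖ ^ 3 ≤ S' x) →
      ∃ Ψ : ℝ → ℝ, Ψ b - Ψ a ≤ K + K * (S b - S a) ∧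
        ∀ x y, a ≤ x → x ≤ y → y ≤ b → ‖r y / ‖r y‖ - r x / ‖r x‖‖ ≤ Ψ y - Ψ x)
    (hcnt : S_CNT)
    {n : ℕ} {τ : ℕ → ℝ} {lab : ℕ → Fin 3} (halt : Alt q n τ lab) (hτ0 : 0 ≤ τ 0)
    (hcl : Close m q δ p (τ 0) (τ n)) :
    2 * (n : ℝ) ≤ K + K * (2 * (CF * √CF) / c ^ 3) +
      2 * ((CF / c * √(2 / ν * (1 + (μ * L + C₁) * CF / c)) + 2 * (C₁ * CF / c)) * CF ^ 2 / c ^ 2) := by
  have hab : τ 0 ≤ τ n := alt_le halt n le_rfl
  set R := rho m q 0 with hR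
  have hCF0 : 0 < CF := by linarith
  have hσ : ∀ x ∈ Icc (τ 0) (τ n), 1 ≤ R + x := fun x hx => by linarith [hx.1]
  have hσ0 : ∀ x ∈ Icc (τ 0) (τ n), 0 < R + x := fun x hx => by linarith [hσ x hx]
  have hκD : ∀ x ∈ Icc (τ 0) (τ n), D q p x ≤ κ * rho m q x := fun x hx =>
    (hcl x hx).trans (mul_le_mul_of_nonneg_right hδ1 (hrho x).le)
  have hρD : ∀ x ∈ Icc (τ 0) (τ n), ‖r x‖ ≤ rho m q x := fun x hx => by
    rw [hp.hr]
    refine (hcl x hx).trans ?_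
    have := mul_le_mul_of_nonneg_right hδ3 (hrho x).le
    linarith
  have hXlo : ∀ x ∈ Icc (τ 0) (τ n), c * rho m q x ≤ ‖X x‖ := fun x hx => hp.Xlo x (hκD x hx)
  have hX0 : ∀ x ∈ Icc (τ 0) (τ n), 0 < ‖X x‖ := fun x hx =>
    lt_of_lt_of_le (mul_pos hc (hrho x)) (hXlo x hx)
  have hf1 : ∀ x ∈ Icc (τ 0) (τ n), R + x ≤ CF * rho m q x := fun x hx =>
    (hf x (hτ0.trans hx.1)).1
  have hf2 : ∀ x ∈ Icc (τ 0) (τ n), rho m q x ≤ CF * (R + x) := fun x hx =>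
    (hf x (hτ0.trans hx.1)).2
  -- lower bound for `X` by `σ`
  have hXσ : ∀ x ∈ Icc (τ 0) (τ n), c / CF * (R + x) ≤ ‖X x‖ := fun x hx => by
    refine le_trans ?_ (hXlo x hx)
    rw [div_mul_eq_mul_div, div_le_iff₀ hCF0]
    have := mul_le_mul_of_nonneg_left (hf1 x hx) hc.le
    linarith
  have hfar : ∀ x ∈ Icc (τ 0) (τ n), P x ≤ C₁ / ‖X x‖ ∧ ‖F x‖ ≤ C₁ * ‖r x‖ / ‖X x‖ ^ 3 ∧
      ‖G x‖ ≤ C₁ / ‖X x‖ ^ 2 := fun x hx => hp.two.far x (hp.two' x (hκD x hx))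
  -- direction of `r`
  obtain ⟨Ψ, hΨ1, hΨ2⟩ := hexu (τ 0) (τ n) hab (fun x hx => by
      refine ⟨?_, hp.esc x⟩
      have h2 : 4 * δ * rho m q x ≤ κ' * c * rho m q x :=
        mul_le_mul_of_nonneg_right hδ2 (hrho x).le
      have hκ' : 0 < κ' := by
        by_contra hcon
        push Not at hcon
        have : κ' * c ≤ 0 := mul_nonpos_of_nonpos_of_nonneg hcon hc.le
        linarith
      have h3 := mul_le_mul_of_nonneg_left (hXlo x hx) hκ'.le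
      have h4 := hcl x hx
      rw [hp.hr]
      linarith)
    (fun t => 2 * (CF * √CF) / c ^ 3 * (- (√(R + t))⁻¹))
    (fun t => 2 * (CF * √CF) / c ^ 3 * (1 / (2 * ((R + t) * √(R + t))))) (fun x hx => by
      refine ⟨(d_isqrt (hσ0 x hx)).const_mul _, ?_⟩
      have hρ := hrho x
      have hsρ : 0 < √(rho m q x) := Real.sqrt_pos.mpr hρ
      have hσx := hσ0 x hx
      have hsσ : 0 < √(R + x) := Real.sqrt_pos.mpr hσx
      have hsC : 0 < √CF := Real.sqrt_pos.mpr hCF0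
      have a1 : ‖r x‖ * √‖r x‖ ≤ rho m q x * √(rho m q x) :=
        mul_le_mul (hρD x hx) (Real.sqrt_le_sqrt (hρD x hx)) (Real.sqrt_nonneg _) hρ.le
      have a2 : (c * rho m q x) ^ 3 ≤ ‖X x‖ ^ 3 :=
        pow_le_pow_left₀ (mul_pos hc hρ).le (hXlo x hx) 3
      have a3 : ‖r x‖ * √‖r x‖ / ‖X x‖ ^ 3 ≤ rho m q x * √(rho m q x) / (c * rho m q x) ^ 3 :=
        div_le_div₀ (by positivity) a1 (by positivity) a2
      have a4 : rho m q x * √(rho m q x) / (c * rho m q x) ^ 3 =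
          1 / c ^ 3 * (1 / (rho m q x * √(rho m q x))) := by
        have a5 : √(rho m q x) * √(rho m q x) = rho m q x := Real.mul_self_sqrt hρ.le
        set s := √(rho m q x) with hs
        rw [← a5]
        field_simp
      have a6 : (R + x) * √(R + x) ≤ CF * √CF * (rho m q x * √(rho m q x)) := by
        have b1 := hf1 x hx
        have b2 : √(R + x) ≤ √CF * √(rho m q x) := by
          rw [← Real.sqrt_mul hCF0.le]
          exact Real.sqrt_le_sqrt b1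
        calc (R + x) * √(R + x) ≤ (CF * rho m q x) * (√CF * √(rho m q x)) :=
              mul_le_mul b1 b2 hsσ.le (by positivity)
          _ = _ := by ring
      have a7 : 1 / (rho m q x * √(rho m q x)) ≤ CF * √CF / ((R + x) * √(R + x)) := by
        rw [div_le_div_iff₀ (by positivity) (by positivity)]
        linarith
      refine a3.trans ?_
      rw [a4]
      refine (mul_le_mul_of_nonneg_left a7 (by positivity)).trans (le_of_eq ?_)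
      field_simp)
  -- constants
  set Y₀ := √(2 / ν * (1 + (μ * L + C₁) * CF / c)) with hY₀
  set A₂ := C₁ * CF / c with hA₂
  have hA₂0 : 0 < A₂ := by positivity
  set A₃ := CF / c * Y₀ + 2 * A₂ with hA₃
  have hY₀0 : 0 ≤ Y₀ := Real.sqrt_nonneg _
  have hA₃0 : 0 < A₃ := by positivity
  set A₄ := A₃ * CF ^ 2 / c ^ 2 with hA₄
  have hA₄0 : 0 < A₄ := by positivity
  -- bound of `Y` at the beginning
  have h0mem : τ 0 ∈ Icc (τ 0) (τ n) := left_mem_Icc.mpr hab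
  have hX1 : ∀ x ∈ Icc (τ 0) (τ n), c / CF ≤ ‖X x‖ := fun x hx => by
    refine le_trans ?_ (hXσ x hx)
    have := mul_le_mul_of_nonneg_left (hσ x hx) (by positivity : 0 ≤ c / CF)
    linarith
  have hY : ‖Y (τ 0)‖ ≤ Y₀ := by
    apply Real.le_sqrt_of_sq_le
    have e1 := hp.two.en (τ 0)
    have e2 := hp.esc (τ 0)
    have e3 := (hfar (τ 0) h0mem).1
    have e4 := hX0 (τ 0) h0mem
    have e5 := hX1 (τ 0) h0mem
    have e6 : - (L / ‖X (τ 0)‖) ≤ eps M r w (τ 0) := by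
      rw [← neg_div, div_le_iff₀ e4]
      exact e2
    have e7 : ν * ‖Y (τ 0)‖ ^ 2 / 2 ≤ 1 + (μ * L + C₁) / ‖X (τ 0)‖ := by
      have e8 : μ * (‖w (τ 0)‖ ^ 2 / 2 - M / ‖r (τ 0)‖) = μ * eps M r w (τ 0) := rfl
      have e9 := mul_le_mul_of_nonneg_left e6 hμ.le
      have e10 : (μ * L + C₁) / ‖X (τ 0)‖ = μ * (L / ‖X (τ 0)‖) + C₁ / ‖X (τ 0)‖ := by ring
      rw [e10]
      linarith
    have e11 : (μ * L + C₁) / ‖X (τ 0)‖ ≤ (μ * L + C₁) * CF / c := by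
      have : (μ * L + C₁) / ‖X (τ 0)‖ ≤ (μ * L + C₁) / (c / CF) :=
        div_le_div_of_nonneg_left (by positivity) (by positivity) e5
      refine this.trans (le_of_eq ?_)
      field_simp
    have e12 : ν * ‖Y (τ 0)‖ ^ 2 / 2 ≤ 1 + (μ * L + C₁) * CF / c := by linarith
    have e13 : 2 / ν * (ν * ‖Y (τ 0)‖ ^ 2 / 2) ≤ 2 / ν * (1 + (μ * L + C₁) * CF / c) :=
      mul_le_mul_of_nonneg_left e12 (by positivity)
    have e14 : 2 / ν * (ν * ‖Y (τ 0)‖ ^ 2 / 2) = ‖Y (τ 0)‖ ^ 2 := by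
      field_simp
    linarith
  have hcr0 : |cr (X (τ 0)) (Y (τ 0))| ≤ CF / c * Y₀ * (R + τ 0) := by
    refine (cr_abs_le _ _).trans ?_
    have e1 : ‖X (τ 0)‖ ≤ CF / c * (R + τ 0) := by
      have e2 := hp.Xup (τ 0)
      have e3 := hf2 (τ 0) h0mem
      rw [div_mul_eq_mul_div, le_div_iff₀ hc]
      linarith
    calc ‖X (τ 0)‖ * ‖Y (τ 0)‖ ≤ (CF / c * (R + τ 0)) * Y₀ :=
          mul_le_mul e1 hY (norm_nonneg _) (by have := hσ0 _ h0mem; positivity)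
      _ = _ := by ring
  -- growth of `cr X Y`
  set σ₀ := R + τ 0 with hσ₀
  have hσ₀1 : 1 ≤ σ₀ := hσ _ h0mem
  have hs0 : 1 ≤ √σ₀ := by rw [Real.one_le_sqrt]; exact hσ₀1
  have hcr : ∀ x ∈ Icc (τ 0) (τ n), |cr (X x) (Y x)| ≤ A₃ * √σ₀ * √(R + x) := by
    intro x hx
    have e1 := abs_sub_le (f := fun t => cr (X t) (Y t))
      (f' := fun t => cr (Y t) (Y t) + cr (X t) (G t)) (g := fun t => A₃ * √σ₀ * √(R + t))
      (g' := fun t => A₃ * √σ₀ * (1 / (2 * √(R + t)))) hx.1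
      (fun y _ => hasDerivAt_cr (hp.two.dX y) (hp.two.dY y))
      (fun y hy => (d_sqrt (hσ0 y ⟨hy.1, hy.2.trans hx.2⟩)).const_mul _)
      (fun y hy => by
        have hy' : y ∈ Icc (τ 0) (τ n) := ⟨hy.1, hy.2.trans hx.2⟩
        have hXy := hX0 y hy'
        have hσy := hσ0 y hy'
        have hsy : 0 < √(R + y) := Real.sqrt_pos.mpr hσy
        have hsy1 : 1 ≤ √(R + y) := by rw [Real.one_le_sqrt]; exact hσ y hy'
        rw [cr_self, zero_add]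
        refine (cr_abs_le _ _).trans ?_
        have g1 := (hfar y hy').2.2
        have g2 : ‖X y‖ * ‖G y‖ ≤ C₁ / ‖X y‖ := by
          refine (mul_le_mul_of_nonneg_left g1 hXy.le).trans (le_of_eq ?_)
          field_simp
        have g3 : C₁ / ‖X y‖ ≤ A₂ / (R + y) := by
          have : C₁ / ‖X y‖ ≤ C₁ / (c / CF * (R + y)) :=
            div_le_div_of_nonneg_left hC₁.le (by positivity) (hXσ y hy')
          refine this.trans (le_of_eq ?_)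
          rw [hA₂]
          field_simp
        have g4 : A₂ / (R + y) ≤ A₃ * √σ₀ * (1 / (2 * √(R + y))) := by
          have g5 : √(R + y) * √(R + y) = R + y := Real.mul_self_sqrt hσy.le
          rw [mul_one_div, div_le_div_iff₀ hσy (by positivity)]
          have g6 : 2 * A₂ ≤ A₃ := by rw [hA₃]; have : 0 ≤ CF / c * Y₀ := by positivity
                                      linarith
          calc A₂ * (2 * √(R + y)) = (2 * A₂) * √(R + y) := by ring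
            _ ≤ A₃ * √(R + y) := mul_le_mul_of_nonneg_right g6 hsy.le
            _ = A₃ * 1 * √(R + y) * 1 := by ring
            _ ≤ A₃ * √σ₀ * √(R + y) * √(R + y) := by gcongr
            _ = A₃ * √σ₀ * (R + y) := by rw [mul_assoc (A₃ * √σ₀), g5]
        exact g2.trans (g3.trans g4))
    have e2 : √(R + τ 0) = √σ₀ := rfl
    rw [e2] at e1
    have e3 : A₃ * √σ₀ * √σ₀ = A₃ * σ₀ := by
      rw [mul_assoc, Real.mul_self_sqrt (by linarith)]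
    have e4 : |cr (X x) (Y x)| ≤ |cr (X (τ 0)) (Y (τ 0))| + |cr (X x) (Y x) - cr (X (τ 0)) (Y (τ 0))| := by
      have := abs_add_le (cr (X (τ 0)) (Y (τ 0))) (cr (X x) (Y x) - cr (X (τ 0)) (Y (τ 0)))
      rwa [add_sub_cancel] at this
    have e5 : CF / c * Y₀ * σ₀ ≤ A₃ * σ₀ := by
      apply mul_le_mul_of_nonneg_right _ (by linarith)
      rw [hA₃]
      linarith
    linarith
  -- direction of `X`
  have hΘ : ∀ x y, τ 0 ≤ x → x ≤ y → y ≤ τ n → ‖X y / ‖X y‖ - X x / ‖X x‖‖ ≤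
      (2 * A₄ * √σ₀ * (- (√(R + y))⁻¹)) - (2 * A₄ * √σ₀ * (- (√(R + x))⁻¹)) := by
    intro x y hx hxy hy
    have hmem : ∀ z ∈ Icc x y, z ∈ Icc (τ 0) (τ n) := fun z hz => ⟨hx.trans hz.1, hz.2.trans hy⟩
    have hd : ∀ z : ℝ, z ∈ Icc (τ 0) (τ n) → ∃ d : ℂ, HasDerivAt (fun t => X t / ‖X t‖) d z ∧
        ‖d‖ ≤ |cr (X z) (Y z)| / ‖X z‖ ^ 2 := fun z hz =>
      dir_deriv (hp.two.dX z) (norm_pos_iff.mp (hX0 z hz))
    choose! d hd1 hd2 using hd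
    have key := image_norm_le_of_norm_deriv_right_le_deriv_boundary'
      (f := fun t => X t / ‖X t‖ - X x / ‖X x‖) (f' := d) (a := x) (b := y)
      (B := fun t => 2 * A₄ * √σ₀ * (- (√(R + t))⁻¹) - (2 * A₄ * √σ₀ * (- (√(R + x))⁻¹)))
      (B' := fun t => 2 * A₄ * √σ₀ * (1 / (2 * ((R + t) * √(R + t)))))
      (fun z hz => ((hd1 z (hmem z hz)).sub_const _).continuousAt.continuousWithinAt)
      (fun z hz => ((hd1 z (hmem z ⟨hz.1, hz.2.le⟩)).sub_const _).hasDerivWithinAt)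
      (by simp)
      (fun z hz => (((d_isqrt (hσ0 z (hmem z hz))).const_mul _).sub_const _).continuousAt.continuousWithinAt)
      (fun z hz => (((d_isqrt (hσ0 z (hmem z ⟨hz.1, hz.2.le⟩))).const_mul _).sub_const _).hasDerivWithinAt)
      (fun z hz => by
        have hz' := hmem z ⟨hz.1, hz.2.le⟩
        have hσz := hσ0 z hz'
        have hsz : 0 < √(R + z) := Real.sqrt_pos.mpr hσz
        refine (hd2 z hz').trans ?_
        have g1 : |cr (X z) (Y z)| / ‖X z‖ ^ 2 ≤ (A₃ * √σ₀ * √(R + z)) / (c / CF * (R + z)) ^ 2 :=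
          div_le_div₀ (by positivity) (hcr z hz') (by positivity)
            (pow_le_pow_left₀ (by positivity) (hXσ z hz') 2)
        refine g1.trans (le_of_eq ?_)
        have g5 : √(R + z) * √(R + z) = R + z := Real.mul_self_sqrt hσz.le
        rw [hA₄]
        set s := √(R + z) with hs
        rw [← g5]
        field_simp)
    exact key (right_mem_Icc.mpr hxy)
  have hfin := hcnt m p μ ν M C₁ L κ c 1 q v r w X Y F G P hp n τ lab halt hκD Ψ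
    (fun t => 2 * A₄ * √σ₀ * (- (√(R + t))⁻¹)) hΨ2 hΘ
  -- bounds for the two variations
  have hσn : 0 < √(R + τ n) := Real.sqrt_pos.mpr (hσ0 _ (right_mem_Icc.mpr hab))
  have b1 : (2 * (CF * √CF) / c ^ 3 * (- (√(R + τ n))⁻¹)) - (2 * (CF * √CF) / c ^ 3 * (- (√(R + τ 0))⁻¹)) ≤
      2 * (CF * √CF) / c ^ 3 := by
    have c1 : (√(R + τ 0))⁻¹ ≤ 1 := inv_le_one_of_one_le₀ hs0
    have c2 : 0 ≤ (√(R + τ n))⁻¹ := by positivity
    have c3 : 0 ≤ 2 * (CF * √CF) / c ^ 3 := by positivity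
    have c4 := mul_le_mul_of_nonneg_left c1 c3
    have c5 := mul_nonneg c3 c2
    linarith
  have b2 : (2 * A₄ * √σ₀ * (- (√(R + τ n))⁻¹)) - (2 * A₄ * √σ₀ * (- (√(R + τ 0))⁻¹)) ≤ 2 * A₄ := by
    have e2 : √(R + τ 0) = √σ₀ := rfl
    rw [e2]
    have c1 : 2 * A₄ * √σ₀ * (- (√σ₀)⁻¹) = - (2 * A₄) := by field_simp
    rw [c1]
    have c2 : 0 ≤ 2 * A₄ * √σ₀ * (√(R + τ n))⁻¹ := by positivity
    linarith
  have b3 := mul_le_mul_of_nonneg_left b1 hK.le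
  linarith

/-- (EXF) for one pair -/
theorem exf_pair (hB : S_BAS) (hP : S_PAIR) (hF : S_FR) (hU : S_EXU) (hN : S_CNT)
    (m : Fin 3 → ℝ) (hm : ∀ a, 0 < m a) (V : ℝ) (hV : 0 < V) (p : Fin 3) :
    ∃ δ₀ : ℝ, 0 < δ₀ ∧ ∃ K : ℕ, ∀ δ : ℝ, 0 < δ → δ ≤ δ₀ →
    ∀ (q v : Fin 3 → ℝ → ℂ), Sol m 1 q v → Unb q → Spd V m 1 q v →
    0 ≤ J m q v 0 → 1 ≤ rho m q 0 →
    ∀ (n : ℕ) (τ : ℕ → ℝ) (lab : ℕ → Fin 3), Alt q n τ lab → 0 ≤ τ 0 →
    Close m q δ p (τ 0) (τ n) → n ≤ K := by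
  obtain ⟨C, hC, hbas⟩ := hB m hm
  obtain ⟨μ, ν, M, C₁, L, κ, c, hpair⟩ := hP m hm p
  by_cases hpos : 0 < μ ∧ 0 < ν ∧ 0 < M ∧ 0 < C₁ ∧ 0 < L ∧ 0 < κ ∧ 0 < c
  swap
  · refine ⟨1, one_pos, 0, ?_⟩
    intro δ _ _ q v hsol hunb
    exfalso
    apply hpos
    obtain ⟨r, w, X, Y, F, G, P, hp⟩ := hpair 1 q v hsol hunb
    exact ⟨hp.two.μ0, hp.two.ν0, hp.two.M0, hp.two.C0, hp.L0, hp.κ0, hp.c0⟩
  obtain ⟨hμ, hν, hM, hC₁, hL, hκ, hc⟩ := hpos
  obtain ⟨CF, hCF, hfr⟩ := hF m hm V hV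
  obtain ⟨κ', K, hκ', hK, hexu⟩ := hU μ ν M C₁ L hμ hν hM hC₁ hL
  refine ⟨min (κ / 4) (min (κ' * c / 4) (1 / 4)), by positivity,
    ⌈(K + K * (2 * (CF * √CF) / c ^ 3) + 2 * ((CF / c * √(2 / ν * (1 + (μ * L + C₁) * CF / c)) +
      2 * (C₁ * CF / c)) * CF ^ 2 / c ^ 2)) / 2⌉₊, ?_⟩
  intro δ hδ hδ1 q v hsol hunb hspd hJ hρ n τ lab halt hτ0 hcl
  obtain ⟨r, w, X, Y, F, G, P, hp⟩ := hpair 1 q v hsol hunb
  have hb := hbas 1 q v hsol
  have h1 : δ ≤ κ / 4 := hδ1.trans (min_le_left _ _)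
  have h2 : δ ≤ κ' * c / 4 := hδ1.trans ((min_le_right _ _).trans (min_le_left _ _))
  have h3 : δ ≤ 1 / 4 := hδ1.trans ((min_le_right _ _).trans (min_le_right _ _))
  have h4 := pair_core (δ := δ) hμ hν hC₁ hL hc hCF hK hδ (by linarith) (by linarith) (by linarith)
    hp hb.rpos (fun t ht => ⟨(hfr q v hsol hspd hJ hρ t ht).1, (hfr q v hsol hspd hJ hρ t ht).2.1⟩)
    hρ (hexu 1 r w X Y F G P hp.two) hN halt hτ0 hcl
  have h5 : (n : ℝ) ≤ (K + K * (2 * (CF * √CF) / c ^ 3) +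
      2 * ((CF / c * √(2 / ν * (1 + (μ * L + C₁) * CF / c)) +
      2 * (C₁ * CF / c)) * CF ^ 2 / c ^ 2)) / 2 := by linarith
  have h6 := h5.trans (Nat.le_ceil _)
  exact_mod_cast h6

theorem t_EXF (hB : S_BAS) (hP : S_PAIR) (hF : S_FR) (hU : S_EXU) (hN : S_CNT) : S_EXF := by
  intro m hm V hV
  choose δ₀ hδ₀ K hK using exf_pair hB hP hF hU hN m hm V hV
  refine ⟨min (δ₀ 0) (min (δ₀ 1) (δ₀ 2)), lt_min (hδ₀ 0) (lt_min (hδ₀ 1) (hδ₀ 2)), ?_⟩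
  intro δ hδ hδ1
  refine ⟨K 0 + K 1 + K 2, ?_⟩
  intro q v hsol hunb hspd hJ hρ n τ lab halt hτ0 p hcl
  have hδp : ∀ p, δ ≤ δ₀ p := by
    intro p
    refine hδ1.trans ?_
    fin_cases p
    · exact min_le_left _ _
    · exact (min_le_right _ _).trans (min_le_left _ _)
    · exact (min_le_right _ _).trans (min_le_right _ _)
  have h1 := hK p δ hδ (hδp p) q v hsol hunb hspd hJ hρ n τ lab halt hτ0 hcl
  have h2 : ∀ p, K p ≤ K 0 + K 1 + K 2 := by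
    intro p
    fin_cases p <;> simp <;> omega
  exact h1.trans (h2 p)

end Pool.Agent.J4H75.TB
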